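import Pool.Agent.helper76.FV.Defs

/-! Project FV, module Q1: the number of solutions at level `m` of a system of equations modulo 1
is a quasi-polynomial in `m`. -/

namespace Pool.Agent.helper76.FV

open Finset

theorem Q1_op {f g : ℕ → ℚ} (hf : QP f) (hg : QP g) (op : Polynomial ℚ → Polynomial ℚ → Polynomial ℚ)
    (op' : ℚ → ℚ → ℚ) (h : ∀ (P Q : Polynomial ℚ) (x : ℚ), (op P Q).eval x = op' (P.eval x) (Q.eval x)) :
    QP (fun m => op' (f m) (g m)) := by
  obtain ⟨N, hN, P, hP⟩ := hf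
  obtain ⟨N', hN', P', hP'⟩ := hg
  refine ⟨N * N', Nat.mul_pos hN hN', fun c => op (P (c % N)) (P' (c % N')), fun m hm => ?_⟩
  rw [h, Nat.mod_mul_right_mod, Nat.mod_mul_left_mod, ← hP m hm, ← hP' m hm]

theorem QP_add {f g : ℕ → ℚ} (hf : QP f) (hg : QP g) : QP (fun m => f m + g m) :=
  Q1_op hf hg (· + ·) (· + ·) fun _ _ _ => Polynomial.eval_add

theorem QP_sub {f g : ℕ → ℚ} (hf : QP f) (hg : QP g) : QP (fun m => f m - g m) :=
  Q1_op hf hg (· - ·) (· - ·) fun _ _ _ => by simp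

theorem Q1_mul {f g : ℕ → ℚ} (hf : QP f) (hg : QP g) : QP (fun m => f m * g m) :=
  Q1_op hf hg (· * ·) (· * ·) fun _ _ _ => Polynomial.eval_mul

theorem Q1_congr {f g : ℕ → ℚ} (hf : QP f) (h : ∀ m, 0 < m → g m = f m) : QP g := by
  obtain ⟨N, hN, P, hP⟩ := hf
  exact ⟨N, hN, P, fun m hm => (h m hm).trans (hP m hm)⟩

theorem Q1_const (c : ℚ) : QP (fun _ => c) :=
  ⟨1, one_pos, fun _ => Polynomial.C c, fun m _ => by simp⟩

theorem Q1_id : QP (fun m => (m : ℚ)) :=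
  ⟨1, one_pos, fun _ => Polynomial.X, fun m _ => by simp⟩

theorem Q1_periodic {N : ℕ} (hN : 0 < N) (G : ℕ → ℚ) : QP (fun m => G (m % N)) :=
  ⟨N, hN, fun c => Polynomial.C (G c), fun m _ => by simp⟩

theorem Q1_prod {ι : Type*} (s : Finset ι) (f : ι → ℕ → ℚ) (h : ∀ i, QP (f i)) :
    QP (fun m => ∏ i ∈ s, f i m) := by
  classical
  induction s using Finset.induction_on with
  | empty => simpa using Q1_const 1
  | insert i s hi ih =>
    refine Q1_congr (Q1_mul (h i) ih) fun m _ => ?_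
    rw [Finset.prod_insert hi]

/-- the values `t` with `0 ≤ θ + t / a < 1` -/
noncomputable def Q1T (a : ℤ) (θ : ℚ) : Finset ℤ :=
  (Finset.Icc (-(⌈|(a : ℚ)| * (1 + |θ|)⌉)) (⌈|(a : ℚ)| * (1 + |θ|)⌉)).filter
    fun t : ℤ => 0 ≤ θ + (t : ℚ) / a ∧ θ + (t : ℚ) / a < 1

theorem Q1_mem_T {a : ℤ} (ha : a ≠ 0) {θ : ℚ} {t : ℤ} :
    t ∈ Q1T a θ ↔ 0 ≤ θ + (t : ℚ) / a ∧ θ + (t : ℚ) / a < 1 := by
  rw [Q1T, Finset.mem_filter, and_iff_right_of_imp]
  rintro ⟨h1, h2⟩
  have ha' : (a : ℚ) ≠ 0 := by exact_mod_cast ha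
  have h3 : |(t : ℚ) / a| ≤ 1 + |θ| := by
    rw [abs_le]
    have := neg_abs_le θ
    have := le_abs_self θ
    constructor <;> linarith
  have h4 : |(t : ℚ)| ≤ |(a : ℚ)| * (1 + |θ|) := by
    rw [abs_div, div_le_iff₀ (abs_pos.mpr ha')] at h3
    linarith [mul_comm (1 + |θ|) |(a : ℚ)|]
  have h5 := h4.trans (Int.le_ceil _)
  rw [abs_le] at h5
  rw [Finset.mem_Icc]
  constructor
  · have := h5.1; exact_mod_cast this
  · have := h5.2; exact_mod_cast this

open Classical in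
theorem Q1_one {a : ℤ} (ha : a ≠ 0) (θ : ℚ) (m : ℕ) (hm : 0 < m) :
    Nat.card {z : ZMod m // ∃ n : ℤ, (a : ℚ) * ((z.val : ℚ) / m - θ) = n} =
      ((Q1T a θ).filter fun t : ℤ => ∃ n : ℤ, (m : ℚ) * (θ + (t : ℚ) / a) = n).card := by
  have : NeZero m := ⟨hm.ne'⟩
  have ha' : (a : ℚ) ≠ 0 := by exact_mod_cast ha
  have hm' : (m : ℚ) ≠ 0 := by exact_mod_cast hm.ne'
  have hm0 : (0 : ℚ) < m := by exact_mod_cast hm
  rw [Nat.card_eq_fintype_card, Fintype.card_subtype]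
  refine Finset.card_bij (fun z _ => ⌊(a : ℚ) * ((z.val : ℚ) / m - θ)⌋) ?_ ?_ ?_
  · intro z hz
    rw [Finset.mem_filter] at hz
    obtain ⟨-, n, hn⟩ := hz
    rw [hn, Int.floor_intCast]
    have h1 : θ + (n : ℚ) / a = (z.val : ℚ) / m := by
      rw [← hn]; field_simp; ring
    rw [Finset.mem_filter, Q1_mem_T ha, h1]
    refine ⟨⟨by positivity, ?_⟩, z.val, by push_cast; field_simp⟩
    rw [div_lt_one hm0]
    exact_mod_cast ZMod.val_lt z
  · intro z hz z' hz' h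
    rw [Finset.mem_filter] at hz hz'
    obtain ⟨-, n, hn⟩ := hz
    obtain ⟨-, n', hn'⟩ := hz'
    rw [hn, hn', Int.floor_intCast, Int.floor_intCast] at h
    rw [h, ← hn'] at hn
    have h1 := mul_left_cancel₀ ha' hn
    have h2 : (z.val : ℚ) / m = (z'.val : ℚ) / m := by linarith
    rw [div_left_inj' hm'] at h2
    exact ZMod.val_injective m (by exact_mod_cast h2)
  · intro t ht
    rw [Finset.mem_filter, Q1_mem_T ha] at ht
    obtain ⟨⟨h1, h2⟩, n, hn⟩ := ht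
    have hn0 : 0 ≤ n := by
      have : (0:ℚ) ≤ n := by rw [← hn]; positivity
      exact_mod_cast this
    have hnm : n < m := by
      have : (n : ℚ) < m := by rw [← hn]; nlinarith
      exact_mod_cast this
    obtain ⟨l, rfl⟩ := Int.eq_ofNat_of_zero_le hn0
    have hl : l < m := by exact_mod_cast hnm
    have hv : ((l : ZMod m)).val = l := ZMod.val_cast_of_lt hl
    have key : (a : ℚ) * ((l : ℚ) / m - θ) = t := by
      have : (l : ℚ) = (m : ℚ) * (θ + t / a) := by rw [hn]; push_cast; rfl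
      rw [this]; field_simp; ring
    refine ⟨(l : ZMod m), ?_, ?_⟩
    · rw [Finset.mem_filter]
      exact ⟨Finset.mem_univ _, t, by rw [hv]; exact key⟩
    · simp only [hv]
      rw [key, Int.floor_intCast]

theorem Q1_isInt_period (y : ℚ) {N : ℕ} (hN : y.den ∣ N) (m : ℕ) :
    (∃ n : ℤ, (m : ℚ) * y = n) ↔ ∃ n : ℤ, ((m % N : ℕ) : ℚ) * y = n := by
  obtain ⟨c, hc⟩ := hN
  have h1 : (N : ℚ) * y = ((c : ℤ) * y.num : ℤ) := by
    have h2 := Rat.mul_den_eq_num y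
    rw [hc]; push_cast
    calc (y.den : ℚ) * c * y = c * (y * y.den) := by ring
      _ = c * y.num := by rw [h2]
  obtain ⟨d, hd⟩ : ∃ d : ℕ, (m : ℚ) = N * d + (m % N : ℕ) := by
    have := Nat.div_add_mod m N
    exact ⟨m / N, by exact_mod_cast this.symm⟩
  constructor
  · rintro ⟨n, hn⟩
    refine ⟨n - (d : ℤ) * ((c : ℤ) * y.num), ?_⟩
    rw [Int.cast_sub, ← hn, Int.cast_mul, ← h1, hd]
    push_cast; ring
  · rintro ⟨n, hn⟩
    refine ⟨n + (d : ℤ) * ((c : ℤ) * y.num), ?_⟩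
    rw [Int.cast_add, ← hn, Int.cast_mul, ← h1, hd]
    push_cast; ring

theorem Q1_one_qp (a : ℤ) (θ : ℚ) :
    QP (fun m => (Nat.card {z : ZMod m // ∃ n : ℤ, (a : ℚ) * ((z.val : ℚ) / m - θ) = n} : ℚ)) := by
  classical
  by_cases ha : a = 0
  · subst ha
    refine Q1_congr Q1_id fun m hm => ?_
    have : NeZero m := ⟨hm.ne'⟩
    have : ∀ z : ZMod m, ∃ n : ℤ, ((0 : ℤ) : ℚ) * ((z.val : ℚ) / m - θ) = n :=
      fun z => ⟨0, by simp⟩
    rw [Nat.card_congr (Equiv.subtypeUnivEquiv this), Nat.card_zmod]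
  · set N : ℕ := ∏ t ∈ Q1T a θ, (θ + (t : ℚ) / a).den with hN
    have hN0 : 0 < N := Finset.prod_pos fun t _ => Rat.den_pos _
    refine Q1_congr (Q1_periodic hN0 fun c =>
      (((Q1T a θ).filter fun t : ℤ => ∃ n : ℤ, (c : ℚ) * (θ + (t : ℚ) / a) = n).card : ℚ)) fun m hm => ?_
    rw [Q1_one ha θ m hm]
    congr 2
    refine Finset.filter_congr fun t ht => ?_
    exact Q1_isInt_period _ (Finset.dvd_prod_of_mem (fun t : ℤ => (θ + (t : ℚ) / a).den) ht) m

/-- integer combinations with integral pairing -/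
def Q1S {k : ℕ} (x : Fin k → ℚ) : Submodule ℤ (Fin k → ℤ) where
  carrier := {v | ∃ n : ℤ, ∑ i, (v i : ℚ) * x i = n}
  add_mem' := by
    rintro v w ⟨n, hn⟩ ⟨n', hn'⟩
    refine ⟨n + n', ?_⟩
    simp only [Pi.add_apply, Int.cast_add, add_mul, Finset.sum_add_distrib, hn, hn']
  zero_mem' := ⟨0, by simp⟩
  smul_mem' := by
    rintro c v ⟨n, hn⟩
    refine ⟨c * n, ?_⟩
    simp only [Pi.smul_apply, smul_eq_mul, Int.cast_mul, ← hn, Finset.mul_sum]
    exact Finset.sum_congr rfl fun i _ => by ring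

theorem Q1_sat {k : ℕ} {E : Sys k} {x₀ : Fin k → ℚ} (h0 : Sat E x₀) (x : Fin k → ℚ) :
    Sat E x ↔ Submodule.span ℤ {v | ∃ p ∈ E, p.1 = v} ≤ Q1S (fun i => x i - x₀ i) := by
  rw [Submodule.span_le]
  constructor
  · rintro h v ⟨p, hp, rfl⟩
    obtain ⟨n, hn⟩ := h p hp
    obtain ⟨n₀, hn₀⟩ := h0 p hp
    refine ⟨n - n₀, ?_⟩
    simp only [mul_sub, Finset.sum_sub_distrib, hn, hn₀]
    push_cast; ring
  · intro h p hp
    obtain ⟨n, hn⟩ := h ⟨p, hp, rfl⟩
    obtain ⟨n₀, hn₀⟩ := h0 p hp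
    refine ⟨n + n₀, ?_⟩
    simp only [mul_sub, Finset.sum_sub_distrib, hn₀] at hn
    push_cast
    linarith

/-- unimodular substitution at level `m` -/
noncomputable def Q1phi {k : ℕ} (m : ℕ) (bM : Module.Basis (Fin k) ℤ (Fin k → ℤ)) :
    (Fin k → ZMod m) ≃ (Fin k → ZMod m) where
  toFun a := Matrix.vecMul a (((Pi.basisFun ℤ (Fin k)).toMatrix bM).map (Int.castRingHom (ZMod m)))
  invFun a := Matrix.vecMul a ((bM.toMatrix (Pi.basisFun ℤ (Fin k))).map (Int.castRingHom (ZMod m)))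
  left_inv a := by
    simp only
    rw [Matrix.vecMul_vecMul, ← Matrix.map_mul, Module.Basis.toMatrix_mul_toMatrix_flip]
    simp
  right_inv a := by
    simp only
    rw [Matrix.vecMul_vecMul, ← Matrix.map_mul, Module.Basis.toMatrix_mul_toMatrix_flip]
    simp

theorem Q1phi_apply {k : ℕ} (m : ℕ) (bM : Module.Basis (Fin k) ℤ (Fin k → ℤ))
    (a : Fin k → ZMod m) (j : Fin k) : Q1phi m bM a j = ∑ l, a l * (bM j l : ZMod m) := by
  change Matrix.vecMul a _ j = _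
  rw [Matrix.vecMul, dotProduct]
  refine Finset.sum_congr rfl fun l _ => ?_
  simp [Module.Basis.toMatrix_apply]

theorem Q1phi_frac {k : ℕ} (m : ℕ) (hm : 0 < m) (bM : Module.Basis (Fin k) ℤ (Fin k → ℤ))
    (a : Fin k → ZMod m) (j : Fin k) :
    ∃ n : ℤ, ∑ l, (bM j l : ℚ) * frac m a l = frac m (Q1phi m bM a) j + n := by
  have : NeZero m := ⟨hm.ne'⟩
  have hm' : (m : ℚ) ≠ 0 := by exact_mod_cast hm.ne'
  have h1 : (((∑ l, bM j l * ((a l).val : ℤ)) : ℤ) : ZMod m) =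
      (((Q1phi m bM a j).val : ℤ) : ZMod m) := by
    push_cast
    rw [Q1phi_apply, ZMod.natCast_zmod_val]
    refine Finset.sum_congr rfl fun l _ => ?_
    rw [ZMod.natCast_zmod_val]; ring
  rw [ZMod.intCast_eq_intCast_iff_dvd_sub] at h1
  obtain ⟨n, hn⟩ := h1
  refine ⟨-n, ?_⟩
  have h2 : (∑ l, (bM j l : ℚ) * ((a l).val : ℚ)) = (Q1phi m bM a j).val - m * n := by
    have h3 : (∑ l, bM j l * ((a l).val : ℤ)) = (Q1phi m bM a j).val - m * n := by
      rw [← hn]; ring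
    exact_mod_cast h3
  have h4 : ∑ l, (bM j l : ℚ) * frac m a l = (∑ l, (bM j l : ℚ) * ((a l).val : ℚ)) / m := by
    rw [Finset.sum_div]
    exact Finset.sum_congr rfl fun l _ => by rw [frac]; ring
  rw [h4, h2, frac]
  push_cast
  field_simp
  ring

theorem sys_qp {k : ℕ} (E : Sys k) :
    QP (fun m => (Set.ncard {a : Fin k → ZMod m | Sat E (frac m a)} : ℚ)) := by
  classical
  by_cases hE : ∃ x₀ : Fin k → ℚ, Sat E x₀
  swap
  · refine Q1_congr (Q1_const 0) fun m _ => ?_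
    have : {a : Fin k → ZMod m | Sat E (frac m a)} = ∅ := by
      rw [Set.eq_empty_iff_forall_notMem]
      exact fun a ha => hE ⟨_, ha⟩
    rw [this, Set.ncard_empty]; rfl
  obtain ⟨x₀, h0⟩ := hE
  set Λ : Submodule ℤ (Fin k → ℤ) := Submodule.span ℤ {v | ∃ p ∈ E, p.1 = v} with hΛ
  obtain ⟨n, bM, bN, f, a, snf⟩ := Submodule.smithNormalForm (Pi.basisFun ℤ (Fin k)) Λ
  have hle : ∀ S : Submodule ℤ (Fin k → ℤ), Λ ≤ S ↔ ∀ i, a i • bM (f i) ∈ S := by
    intro S
    constructor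
    · intro h i
      rw [← snf i]
      exact h (bN i).2
    · intro h v hv
      have h1 := bN.sum_repr ⟨v, hv⟩
      have h2 := congrArg (Submodule.subtype Λ) h1
      rw [map_sum] at h2
      simp only [Submodule.subtype_apply, map_smul] at h2
      rw [← h2]
      refine S.sum_mem fun i _ => S.smul_mem _ ?_
      rw [snf i]
      exact h i
  -- the condition on every coordinate
  let θ : Fin k → ℚ := fun j => ∑ l, (bM j l : ℚ) * x₀ l
  have hcond : ∀ m : ℕ, 0 < m → ∀ b : Fin k → ZMod m, Sat E (frac m b) ↔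
      ∀ j, ∀ i, f i = j → ∃ n : ℤ, (a i : ℚ) * (((Q1phi m bM b j).val : ℚ) / m - θ j) = n := by
    intro m hm b
    rw [Q1_sat h0, hle]
    have h5 : ∀ i, (a i • bM (f i) ∈ Q1S (fun l => frac m b l - x₀ l) ↔
        ∃ n : ℤ, (a i : ℚ) * (((Q1phi m bM b (f i)).val : ℚ) / m - θ (f i)) = n) := by
      intro i
      obtain ⟨N, hN⟩ := Q1phi_frac m hm bM b (f i)
      have h6 : ∑ l, ((a i • bM (f i)) l : ℚ) * (frac m b l - x₀ l) =
          (a i : ℚ) * (((Q1phi m bM b (f i)).val : ℚ) / m - θ (f i)) + (a i * N : ℤ) := by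
        have h7 : ∑ l, ((a i • bM (f i)) l : ℚ) * (frac m b l - x₀ l) =
            (a i : ℚ) * ((∑ l, (bM (f i) l : ℚ) * frac m b l) - θ (f i)) := by
          rw [mul_sub, Finset.mul_sum, Finset.mul_sum, ← Finset.sum_sub_distrib]
          refine Finset.sum_congr rfl fun l _ => ?_
          simp only [Pi.smul_apply, smul_eq_mul, Int.cast_mul]
          ring
        rw [h7, hN, frac]
        push_cast
        ring
      constructor
      · rintro ⟨n, hn⟩
        refine ⟨n - a i * N, ?_⟩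
        rw [h6] at hn
        rw [Int.cast_sub, ← hn]; ring
      · rintro ⟨n, hn⟩
        refine ⟨n + a i * N, ?_⟩
        rw [h6, hn, Int.cast_add]
    constructor
    · intro h j i hij
      subst hij
      exact (h5 i).mp (h i)
    · intro h i
      exact (h5 i).mpr (h (f i) i rfl)
  have hcount : ∀ m : ℕ, 0 < m → (Set.ncard {b : Fin k → ZMod m | Sat E (frac m b)} : ℚ) =
      ∏ j : Fin k, (Nat.card {z : ZMod m // ∀ i, f i = j →
        ∃ n : ℤ, (a i : ℚ) * ((z.val : ℚ) / m - θ j) = n} : ℚ) := by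
    intro m hm
    have h8 : Set.ncard {b : Fin k → ZMod m | Sat E (frac m b)} =
        ∏ j : Fin k, Nat.card {z : ZMod m // ∀ i, f i = j →
        ∃ n : ℤ, (a i : ℚ) * ((z.val : ℚ) / m - θ j) = n} := by
      rw [← Nat.card_pi, ← Nat.card_coe_set_eq]
      refine Nat.card_congr ?_
      refine (Equiv.subtypeEquiv (q := fun c : Fin k → ZMod m => ∀ j, ∀ i, f i = j →
        ∃ n : ℤ, (a i : ℚ) * (((c j).val : ℚ) / m - θ j) = n) (Q1phi m bM)
        (fun b => hcond m hm b)).trans ?_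
      exact Equiv.subtypePiEquivPi (β := fun _ : Fin k => ZMod m) (p := fun j z => ∀ i, f i = j →
        ∃ n : ℤ, (a i : ℚ) * ((z.val : ℚ) / m - θ j) = n)
    rw [h8]; push_cast; rfl
  refine Q1_congr (Q1_prod (Finset.univ : Finset (Fin k)) (fun j m =>
    (Nat.card {z : ZMod m // ∀ i, f i = j →
        ∃ n : ℤ, (a i : ℚ) * ((z.val : ℚ) / m - θ j) = n} : ℚ)) fun j => ?_) hcount
  by_cases hj : ∃ i, f i = j
  · obtain ⟨i, hi⟩ := hj
    refine Q1_congr (Q1_one_qp (a i) (θ j)) fun m _ => ?_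
    congr 1
    refine Nat.card_congr (Equiv.subtypeEquivRight fun z => ?_)
    constructor
    · intro h; exact h i hi
    · intro h i' hi'
      have : i' = i := f.injective (hi'.trans hi.symm)
      rw [this]; exact h
  · push Not at hj
    refine Q1_congr Q1_id fun m hm => ?_
    have : NeZero m := ⟨hm.ne'⟩
    rw [Nat.card_congr (Equiv.subtypeUnivEquiv fun z i hi => absurd hi (hj i)), Nat.card_zmod]

end Pool.Agent.helper76.FV
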