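import Pool.Agent.helper48.FV.Q1

/-! Project FV, module Q2: Boolean combinations of systems. -/

namespace Pool.Agent.helper76.FV

open Finset

theorem Q2_append {k : ℕ} (E D : Sys k) (x : Fin k → ℚ) : Sat (E ++ D) x ↔ Sat E x ∧ Sat D x := by
  constructor
  · intro h
    exact ⟨fun p hp => h p (List.mem_append_left _ hp), fun p hp => h p (List.mem_append_right _ hp)⟩
  · rintro ⟨h1, h2⟩ p hp
    rcases List.mem_append.mp hp with h | h
    · exact h1 p h
    · exact h2 p h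

theorem Q2_one {k : ℕ} (D : List (Sys k)) : ∀ E : Sys k,
    QP (fun m => (Set.ncard {a : Fin k → ZMod m | Sat E (frac m a) ∧
      ∀ E' ∈ D, ¬ Sat E' (frac m a)} : ℚ)) := by
  induction D with
  | nil =>
    intro E
    refine Q1_congr (sys_qp E) fun m _ => ?_
    simp
  | cons F D ih =>
    intro E
    refine Q1_congr (QP_sub (ih E) (ih (E ++ F))) fun m hm => ?_
    have : NeZero m := ⟨hm.ne'⟩
    have h1 : {a : Fin k → ZMod m | Sat (E ++ F) (frac m a) ∧ ∀ E' ∈ D, ¬ Sat E' (frac m a)} ⊆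
        {a : Fin k → ZMod m | Sat E (frac m a) ∧ ∀ E' ∈ D, ¬ Sat E' (frac m a)} := by
      rintro a ⟨ha, hb⟩
      exact ⟨((Q2_append _ _ _).mp ha).1, hb⟩
    have h2 : {a : Fin k → ZMod m | Sat E (frac m a) ∧ ∀ E' ∈ F :: D, ¬ Sat E' (frac m a)} =
        {a : Fin k → ZMod m | Sat E (frac m a) ∧ ∀ E' ∈ D, ¬ Sat E' (frac m a)} \
        {a : Fin k → ZMod m | Sat (E ++ F) (frac m a) ∧ ∀ E' ∈ D, ¬ Sat E' (frac m a)} := by
      ext a
      simp only [Set.mem_ofPred_eq, Set.mem_sdiff, List.forall_mem_cons, Q2_append]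
      tauto
    rw [h2, Set.ncard_sdiff h1 (Set.toFinite _), Nat.cast_sub (Set.ncard_le_ncard h1 (Set.toFinite _))]

theorem bool_qp {k : ℕ} (L D : List (Sys k)) :
    QP (fun m => (Set.ncard {a : Fin k → ZMod m | (∃ E ∈ L, Sat E (frac m a)) ∧
      ∀ E ∈ D, ¬ Sat E (frac m a)} : ℚ)) := by
  induction L generalizing D with
  | nil =>
    refine Q1_congr (Q1_const 0) fun m _ => ?_
    simp
  | cons F L ih =>
    refine Q1_congr (QP_add (Q2_one D F) (ih (F :: D))) fun m hm => ?_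
    have : NeZero m := ⟨hm.ne'⟩
    have h2 : {a : Fin k → ZMod m | (∃ E ∈ F :: L, Sat E (frac m a)) ∧
          ∀ E ∈ D, ¬ Sat E (frac m a)} =
        {a : Fin k → ZMod m | Sat F (frac m a) ∧ ∀ E' ∈ D, ¬ Sat E' (frac m a)} ∪
        {a : Fin k → ZMod m | (∃ E ∈ L, Sat E (frac m a)) ∧
          ∀ E ∈ F :: D, ¬ Sat E (frac m a)} := by
      ext a
      simp only [Set.mem_ofPred_eq, Set.mem_union, List.forall_mem_cons, List.exists_mem_cons_iff]
      tauto
    rw [h2, Set.ncard_union_eq ?_ (Set.toFinite _) (Set.toFinite _)]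
    · push_cast; rfl
    · rw [Set.disjoint_left]
      rintro a ⟨h3, -⟩ ⟨-, h4⟩
      exact h4 F (by simp) h3

end Pool.Agent.helper76.FV
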