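import Pool.Agent.helper48.FV.Q1

/-! Project FV, module SY: families are solution sets of systems. -/

namespace Pool.Agent.helper76.FV

open Finset

theorem SY_sat {k : ℕ} (S : Finset (Fin k → ℤ)) (b x : Fin k → ℚ) :
    Sat (S.toList.map fun v => (v, ∑ i, (v i : ℚ) * b i)) x ↔
      Submodule.span ℤ (S : Set (Fin k → ℤ)) ≤ Q1S (fun i => x i - b i) := by
  rw [Submodule.span_le]
  constructor
  · intro h v hv
    obtain ⟨n, hn⟩ := h (v, ∑ i, (v i : ℚ) * b i)
      (List.mem_map.mpr ⟨v, Finset.mem_toList.mpr hv, rfl⟩)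
    refine ⟨n, ?_⟩
    simp only at hn
    simp only [mul_sub, Finset.sum_sub_distrib, hn]
    ring
  · intro h p hp
    obtain ⟨v, hv, rfl⟩ := List.mem_map.mp hp
    obtain ⟨n, hn⟩ := h (Finset.mem_toList.mp hv)
    refine ⟨n, ?_⟩
    simp only [mul_sub, Finset.sum_sub_distrib] at hn ⊢
    linarith

/-- `v ↦ v A` -/
def SYT {k d : ℕ} (A : Fin k → Fin d → ℤ) : (Fin k → ℤ) →ₗ[ℤ] (Fin d → ℤ) where
  toFun v := fun j => ∑ i, v i * A i j
  map_add' v w := by
    funext j
    simp only [Pi.add_apply, add_mul, Finset.sum_add_distrib]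
  map_smul' c v := by
    funext j
    simp only [Pi.smul_apply, smul_eq_mul, Finset.mul_sum, RingHom.id_apply, mul_assoc]

/-- `v ↦ v . y` modulo 1 -/
noncomputable def SYh {k : ℕ} (y : Fin k → ℚ) : (Fin k → ℤ) →ₗ[ℤ] AddCircle (1 : ℚ) where
  toFun v := ((∑ i, (v i : ℚ) * y i : ℚ) : AddCircle (1 : ℚ))
  map_add' v w := by
    rw [← AddCircle.coe_add]
    congr 1
    simp only [Pi.add_apply, Int.cast_add, add_mul, Finset.sum_add_distrib]
  map_smul' c v := by
    rw [RingHom.id_apply, ← AddCircle.coe_zsmul]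
    congr 1
    simp only [Pi.smul_apply, smul_eq_mul, Int.cast_mul, zsmul_eq_mul, Finset.mul_sum, mul_assoc]

theorem SY_zero {y : ℚ} : ((y : ℚ) : AddCircle (1 : ℚ)) = 0 ↔ ∃ n : ℤ, y = n := by
  rw [AddCircle.coe_eq_zero_iff]
  constructor
  · rintro ⟨n, hn⟩; exact ⟨n, by rw [← hn]; simp⟩
  · rintro ⟨n, hn⟩; exact ⟨n, by rw [hn]; simp⟩

theorem SY_ext {k d : ℕ} (A : Fin k → Fin d → ℤ) (y : Fin k → ℚ)
    (h : ∀ v, SYT A v = 0 → SYh y v = 0) :
    ∃ u : Fin d → ℚ, ∀ i, ∃ n : ℤ, y i = ∑ j, (A i j : ℚ) * u j + n := by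
  classical
  set T := SYT A with hT
  set hh := SYh y with hhh
  have hle : LinearMap.ker T ≤ LinearMap.ker hh := fun v hv => h v hv
  let hbar : LinearMap.range T →ₗ[ℤ] AddCircle (1 : ℚ) :=
    ((LinearMap.ker T).liftQ hh hle).comp (T.quotKerEquivRange.symm : _ →ₗ[ℤ] _)
  obtain ⟨g, hg⟩ := CharacterModule.dual_surjective_of_injective
    (LinearMap.range T).subtype (Submodule.subtype_injective _) hbar.toAddMonoidHom
  have hgT : ∀ v, g (T v) = hh v := by
    intro v
    have h1 := congrArg (fun c : CharacterModule (LinearMap.range T) =>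
      c ⟨T v, LinearMap.mem_range_self T v⟩) hg
    have h2 : hbar ⟨T v, LinearMap.mem_range_self T v⟩ = hh v := by
      simp only [hbar, LinearMap.comp_apply]
      have h3 : T.quotKerEquivRange.symm ⟨T v, LinearMap.mem_range_self T v⟩ =
          (LinearMap.ker T).mkQ v := by
        rw [LinearEquiv.symm_apply_eq]
        rfl
      change (LinearMap.ker T).liftQ hh hle (T.quotKerEquivRange.symm _) = _
      rw [h3]
      simp
    exact h1.trans h2
  have hu : ∀ j : Fin d, ∃ q : ℚ, ((q : ℚ) : AddCircle (1 : ℚ)) = g (Pi.single j 1) := by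
    intro j
    exact QuotientAddGroup.mk_surjective _
  choose u hu using hu
  refine ⟨u, fun i => ?_⟩
  have h4 : T (Pi.single i 1) = A i := by
    funext j
    change ∑ l, (Pi.single i (1:ℤ) : Fin k → ℤ) l * A l j = A i j
    rw [Finset.sum_eq_single i]
    · simp
    · intro l _ hl; simp [hl]
    · simp
  have h5 : hh (Pi.single i 1) = ((y i : ℚ) : AddCircle (1 : ℚ)) := by
    change ((∑ l, ((Pi.single i (1:ℤ) : Fin k → ℤ) l : ℚ) * y l : ℚ) : AddCircle (1 : ℚ)) = _
    congr 1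
    rw [Finset.sum_eq_single i]
    · simp
    · intro l _ hl; simp [hl]
    · simp
  have h6 : g (A i) = ((∑ j, (A i j : ℚ) * u j : ℚ) : AddCircle (1 : ℚ)) := by
    have h7 : A i = ∑ j, A i j • (Pi.single j (1:ℤ) : Fin d → ℤ) := by
      funext l
      simp [Finset.sum_apply, Pi.single_apply]
    have h8 : ((∑ j, (A i j : ℚ) * u j : ℚ) : AddCircle (1 : ℚ)) =
        ∑ j, A i j • ((u j : ℚ) : AddCircle (1 : ℚ)) := by
      have := map_sum (QuotientAddGroup.mk' (AddSubgroup.zmultiples (1:ℚ)))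
        (fun j => (A i j : ℚ) * u j) Finset.univ
      refine this.trans (Finset.sum_congr rfl fun j _ => ?_)
      rw [← AddCircle.coe_zsmul, zsmul_eq_mul]
      rfl
    rw [h8]
    conv_lhs => rw [h7]
    rw [map_sum]
    refine Finset.sum_congr rfl fun j _ => ?_
    rw [map_zsmul, hu j]
  have h9 := hgT (Pi.single i 1)
  rw [h4, h5, h6] at h9
  have h10 : ((y i - ∑ j, (A i j : ℚ) * u j : ℚ) : AddCircle (1 : ℚ)) = 0 := by
    rw [AddCircle.coe_sub, ← h9, sub_self]
  obtain ⟨n, hn⟩ := SY_zero.mp h10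
  exact ⟨n, by linarith⟩

theorem fam_sys {k : ℕ} (H : Fam k) : ∃ E : Sys k, ∀ x : Fin k → ℚ, H.Mem x ↔ Sat E x := by
  classical
  obtain ⟨S, hS⟩ := (IsNoetherian.noetherian (LinearMap.ker (SYT H.A)) : (LinearMap.ker (SYT H.A)).FG)
  refine ⟨S.toList.map fun v => (v, ∑ i, (v i : ℚ) * H.b i), fun x => ?_⟩
  rw [SY_sat, hS]
  constructor
  · rintro ⟨u, hu⟩ v hv
    choose n hn using hu
    refine ⟨∑ i, v i * n i, ?_⟩
    have h1 : ∀ j, ∑ i, v i * H.A i j = 0 := fun j => congrFun hv j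
    have h2 : ∑ i, (v i : ℚ) * ∑ j, (H.A i j : ℚ) * u j = 0 := by
      have h3 : ∑ i, (v i : ℚ) * ∑ j, (H.A i j : ℚ) * u j =
          ∑ j, ((∑ i, v i * H.A i j : ℤ) : ℚ) * u j := by
        simp only [Finset.mul_sum]
        rw [Finset.sum_comm]
        refine Finset.sum_congr rfl fun j _ => ?_
        push_cast
        rw [Finset.sum_mul]
        exact Finset.sum_congr rfl fun i _ => by ring
      rw [h3]
      simp [h1]
    have h4 : ∀ i, (v i : ℚ) * (x i - H.b i) =
        (v i : ℚ) * ∑ j, (H.A i j : ℚ) * u j + (v i : ℚ) * n i := by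
      intro i; rw [hn i]; ring
    simp only [h4, Finset.sum_add_distrib, h2]
    push_cast
    ring
  · intro h
    obtain ⟨u, hu⟩ := SY_ext H.A (fun i => x i - H.b i) (fun v hv => by
      obtain ⟨n, hn⟩ := h hv
      exact SY_zero.mpr ⟨n, hn⟩)
    refine ⟨u, fun i => ?_⟩
    obtain ⟨n, hn⟩ := hu i
    exact ⟨n, by linarith⟩

end Pool.Agent.helper76.FV
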